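import Mathlib

/-!
Module AC, part 2: from nonnegative functions to complex functions.
-/

set_option autoImplicit false

open MeasureTheory Filter Topology Set
open scoped ComplexConjugate ENNReal

namespace Pool.Agent.H78.UDA

theorem finsum_finset {α M : Type} [AddCommMonoid M] (f : α → M) (s : Set α) (T : Finset α)
    (h1 : ∀ x ∈ T, x ∈ s) (h2 : ∀ x ∈ s, f x ≠ 0 → x ∈ T) : ∑ᶠ x ∈ s, f x = ∑ x ∈ T, f x := by
  refine finsum_mem_eq_sum_of_inter_support_eq f ?_
  ext x
  constructor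
  · rintro ⟨hx, hx'⟩
    exact ⟨h2 x hx hx', hx'⟩
  · rintro ⟨hx, hx'⟩
    exact ⟨h1 x hx, hx'⟩

section

variable {α Y T : Type} [MeasurableSpace Y] [MeasurableSpace T] (ν : Measure Y)
  (μ : ℕ → Measure T) (X : Y → Set α) (Fb : ℕ → T → Finset α) (w : ℕ → T → α → ℝ)

/-- the formula for a real function -/
structure RF (G : α → ℝ) : Prop where
  i1 : Integrable (fun y => ∑ᶠ x ∈ X y, G x) ν
  i2 : ∀ a, Integrable (fun t => ∑ x ∈ Fb a t, G x * w a t x) (μ a)
  i3 : Summable fun a => ∫ t, ∑ x ∈ Fb a t, G x * w a t x ∂(μ a)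
  eq : ∫ y, ∑ᶠ x ∈ X y, G x ∂ν = ∑' a, ∫ t, ∑ x ∈ Fb a t, G x * w a t x ∂(μ a)

theorem comb {N : ℕ} (K : Set α) (hfin : ∀ᵐ y ∂ν, (X y ∩ K).Finite) (G : Fin N → α → ℝ)
    (c : Fin N → ℂ) (hG : ∀ j x, G j x ≠ 0 → x ∈ K) (hR : ∀ j, RF ν μ X Fb w (G j))
    (F : α → ℂ) (hF : ∀ x, F x = ∑ j, c j * (G j x : ℂ)) :
    ∫ y, ∑ᶠ x ∈ X y, F x ∂ν = ∑' a, ∫ t, ∑ x ∈ Fb a t, F x * ((w a t x : ℝ) : ℂ) ∂(μ a) := by
  have e1 : ∀ᵐ y ∂ν, ∑ᶠ x ∈ X y, F x = ∑ j, c j * ((∑ᶠ x ∈ X y, G j x : ℝ) : ℂ) := by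
    filter_upwards [hfin] with y hy
    have hT : ∀ x ∈ hy.toFinset, x ∈ X y := fun x hx => ((hy.mem_toFinset).1 hx).1
    rw [finsum_finset F (X y) hy.toFinset hT]
    · have h1 : ∀ j, ∑ᶠ x ∈ X y, G j x = ∑ x ∈ hy.toFinset, G j x := fun j =>
        finsum_finset (G j) (X y) hy.toFinset hT fun x hx hne =>
          (hy.mem_toFinset).2 ⟨hx, hG j x hne⟩
      simp only [h1, hF]
      rw [Finset.sum_comm]
      refine Finset.sum_congr rfl fun j _ => ?_
      rw [Complex.ofReal_sum, Finset.mul_sum]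
    · intro x hx hne
      refine (hy.mem_toFinset).2 ⟨hx, ?_⟩
      by_contra hxK
      apply hne
      rw [hF]
      refine Finset.sum_eq_zero fun j _ => ?_
      have : G j x = 0 := by
        by_contra h
        exact hxK (hG j x h)
      rw [this, Complex.ofReal_zero, mul_zero]
  have e2 : ∀ a t, ∑ x ∈ Fb a t, F x * ((w a t x : ℝ) : ℂ) =
      ∑ j, c j * ((∑ x ∈ Fb a t, G j x * w a t x : ℝ) : ℂ) := by
    intro a t
    simp only [hF, Finset.sum_mul]
    rw [Finset.sum_comm]
    refine Finset.sum_congr rfl fun j _ => ?_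
    rw [Complex.ofReal_sum, Finset.mul_sum]
    refine Finset.sum_congr rfl fun x _ => ?_
    rw [Complex.ofReal_mul]
    ring
  have e3 : ∀ a, ∫ t, ∑ x ∈ Fb a t, F x * ((w a t x : ℝ) : ℂ) ∂(μ a) =
      ∑ j, c j * ((∫ t, ∑ x ∈ Fb a t, G j x * w a t x ∂(μ a) : ℝ) : ℂ) := by
    intro a
    simp only [e2]
    rw [integral_finsetSum _ fun j _ => ((hR j).i2 a).ofReal.const_mul _]
    refine Finset.sum_congr rfl fun j _ => ?_
    rw [integral_const_mul, integral_complex_ofReal]
  rw [integral_congr_ae e1, integral_finsetSum _ fun j _ => ((hR j).i1).ofReal.const_mul _]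
  simp only [e3]
  have hs : ∀ j, Summable fun a =>
      c j * ((∫ t, ∑ x ∈ Fb a t, G j x * w a t x ∂(μ a) : ℝ) : ℂ) := fun j =>
    (Complex.hasSum_ofReal.2 (hR j).i3.hasSum).summable.mul_left _
  rw [Summable.tsum_finsetSum fun j _ => hs j]
  refine Finset.sum_congr rfl fun j _ => ?_
  rw [integral_const_mul, integral_complex_ofReal, (hR j).eq, tsum_mul_left, Complex.ofReal_tsum]

end

/-- the four parts of a complex function -/
noncomputable def parts {α : Type} (F : α → ℂ) : Fin 4 → α → ℝ :=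
  ![fun x => max (F x).re 0, fun x => max (-(F x).re) 0, fun x => max (F x).im 0,
    fun x => max (-(F x).im) 0]

theorem parts_eq {α : Type} (F : α → ℂ) (x : α) :
    F x = ∑ j, (![1, -1, Complex.I, -Complex.I] : Fin 4 → ℂ) j * (parts F j x : ℂ) := by
  have h : ∀ a : ℝ, a = max a 0 - max (-a) 0 := by
    intro a
    rcases le_total 0 a with h | h
    · rw [max_eq_left h, max_eq_right (by linarith), sub_zero]
    · rw [max_eq_right h, max_eq_left (by linarith)]
      ring
  rw [Fin.sum_univ_four]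
  unfold parts
  simp only [Matrix.cons_val_zero, Matrix.cons_val_one, Matrix.cons_val]
  apply Complex.ext
  · simp
    linarith [h (F x).re]
  · simp
    linarith [h (F x).im]

theorem parts_nonneg {α : Type} (F : α → ℂ) (j : Fin 4) (x : α) : 0 ≤ parts F j x := by
  unfold parts
  fin_cases j <;> simp

theorem parts_le {α : Type} (F : α → ℂ) (j : Fin 4) (x : α) : parts F j x ≤ ‖F x‖ := by
  have h1 := Complex.abs_re_le_norm (F x)
  have h2 := Complex.abs_im_le_norm (F x)
  have h3 := le_abs_self (F x).re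
  have h4 := neg_le_abs (F x).re
  have h5 := le_abs_self (F x).im
  have h6 := neg_le_abs (F x).im
  have h7 := norm_nonneg (F x)
  unfold parts
  fin_cases j <;> simp <;> linarith

theorem parts_meas {α : Type} [MeasurableSpace α] {F : α → ℂ} (hF : Measurable F) (j : Fin 4) :
    Measurable (parts F j) := by
  have h1 : Measurable fun x => (F x).re := Complex.measurable_re.comp hF
  have h2 : Measurable fun x => (F x).im := Complex.measurable_im.comp hF
  unfold parts
  fin_cases j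
  · exact h1.max measurable_const
  · exact h1.neg.max measurable_const
  · exact h2.max measurable_const
  · exact h2.neg.max measurable_const

end Pool.Agent.H78.UDA
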