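import Pool.Agent.H78.UDA.ACa
import Pool.Agent.H78.UDA.ACb

/-!
Module AC: the area formula for a cycle and a bounded function.
-/

set_option autoImplicit false

open Polynomial MeasureTheory Filter Topology Set ProbabilityTheory
open scoped ComplexConjugate ENNReal

namespace Pool.Agent.H78.UDA

open Pool.Agent.H83.UE

theorem tsum_disj {α : Type} (f : α → ℝ≥0∞) (A : ℕ → Set α)
    (h : Pairwise (Function.onFun Disjoint A)) :
    ∑' x : (⋃ a, A a : Set α), f x = ∑' a, ∑' x : A a, f x := by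
  rw [← (Set.unionEqSigmaOfDisjoint h).symm.tsum_eq (fun x : (⋃ a, A a : Set α) => f x)]
  simp only [coe_unionEqSigmaOfDisjoint_symm_apply]
  exact ENNReal.tsum_sigma' _

theorem tsum_fin {α : Type} (f : α → ℝ≥0∞) (X K : Set α) (hfin : (X ∩ K).Finite)
    (hf : ∀ x, x ∉ K → f x = 0) : ∑' x : X, f x = ∑ x ∈ hfin.toFinset, f x := by
  rw [tsum_subtype X f, tsum_eq_sum (s := hfin.toFinset)]
  · refine Finset.sum_congr rfl fun x hx => ?_
    exact indicator_of_mem ((hfin.mem_toFinset).1 hx).1 f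
  · intro x hx
    by_cases hX : x ∈ X
    · rw [indicator_of_mem hX]
      apply hf
      intro hK
      exact hx ((hfin.mem_toFinset).2 ⟨hX, hK⟩)
    · exact indicator_of_notMem hX f

theorem finite_of_tsum {α : Type} (X K : Set α)
    (h : ∑' x : X, K.indicator (1 : α → ℝ≥0∞) x ≠ ⊤) : (X ∩ K).Finite := by
  have h1 := ENNReal.finite_const_le_of_tsum_ne_top h one_ne_zero
  refine (h1.image Subtype.val).subset ?_
  rintro x ⟨hX, hK⟩
  refine ⟨⟨x, hX⟩, ?_, rfl⟩
  show (1 : ℝ≥0∞) ≤ K.indicator (1 : α → ℝ≥0∞) x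
  rw [indicator_of_mem hK, Pi.one_apply]

theorem pf_AC (h1 : T_AF) (h2 : T_NEG) (h3 : T_NES) : T_AC := by
  intro k m d hd g n V c r S ψ hP Φ K F B hΦ hK hF hB hFK hfin
  obtain ⟨hP1, hP2, hP3⟩ := hP
  choose Z hZm hZS hZ0 _ hAF using fun a => h1 k m d hd g n (c a) (r a) (S a) (ψ a) Φ (hP1 a).1
    (hP1 a).2.1 (hP1 a).2.2.1 (hP1 a).2.2.2.1 hΦ
  obtain ⟨A, hA⟩ : ∃ A : ℕ → (Fin m → ℂ) → Set (Fin k → ℂ), A = fun a y =>
      {x | RegT g n x ∧ valT g n x ∈ ψ a '' (S a \ Z a) ∧ Φ x = y ∧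
        ∃ t ∈ S a \ Z a, ψ a t = valT g n x ∧ bdet g n Φ (ψ a) t x ≠ 0} := ⟨_, rfl⟩
  obtain ⟨X, hX⟩ : ∃ X : (Fin m → ℂ) → Set (Fin k → ℂ), X = fun y =>
      {x | RegT g n x ∧ coef (valT g n x) ∈ V ∧ Φ x = y} := ⟨_, rfl⟩
  obtain ⟨hs, hhs⟩ : ∃ hs : ((Fin k → ℂ) → ℝ≥0∞) → ℕ → (Fin m → ℂ) → ℝ≥0∞, hs = fun f a t =>
      ∑ x ∈ fibre g n (ψ a t), f x * ENNReal.ofReal (‖bdet g n Φ (ψ a) t x‖ ^ 2) := ⟨_, rfl⟩
  have hAF1 : ∀ a (f : (Fin k → ℂ) → ℝ≥0∞), Measurable f →
      (Measurable fun y => ∑' x : A a y, f x) ∧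
      ∫⁻ t in S a, hs f a t = ∫⁻ y, ∑' x : A a y, f x := by
    intro a f hf
    rw [hA, hhs]
    exact ⟨(hAF a f hf).1, (hAF a f hf).2.1⟩
  -- the sets `X y`
  have hN : Measure.hausdorffMeasure (2 * m : ℝ)
      ((coef ⁻¹' V \ ⋃ a, ψ a '' S a) ∪ ⋃ a, ψ a '' Z a) = 0 :=
    measure_union_null hP3 (measure_iUnion_null fun a => h3 k m (c a) (r a) (Z a) (ψ a)
      ((hZS a).trans (hP1 a).2.1) (hP1 a).2.2.1 (hZ0 a))
  have hE1 := measure_eq_zero_iff_ae_notMem.1 (h2 k m d hd g n Φ _ hΦ hN)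
  have hE2 : ∀ᵐ y : Fin m → ℂ, ∀ a, y ∉ Φ '' {x | RegT g n x ∧ ∃ t ∈ S a \ Z a,
      ψ a t = valT g n x ∧ bdet g n Φ (ψ a) t x = 0} := by
    rw [ae_all_iff]
    intro a
    exact measure_eq_zero_iff_ae_notMem.1 (hAF a 0 measurable_zero).2.2
  have hXA : ∀ᵐ y : Fin m → ℂ, X y = ⋃ a, A a y := by
    filter_upwards [hE1, hE2] with y hy1 hy2
    rw [hX, hA]
    ext x
    simp only [mem_setOf_eq, mem_iUnion]
    constructor
    · rintro ⟨hx1, hx2, hx3⟩
      have hN' : valT g n x ∉ (coef ⁻¹' V \ ⋃ a, ψ a '' S a) ∪ ⋃ a, ψ a '' Z a := by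
        intro h
        exact hy1 ⟨x, ⟨hx1, h⟩, hx3⟩
      rw [mem_union, not_or] at hN'
      have h4 : valT g n x ∈ ⋃ a, ψ a '' S a := by
        by_contra h
        exact hN'.1 ⟨hx2, h⟩
      obtain ⟨a, t, ht, hta⟩ := mem_iUnion.1 h4
      have h5 : t ∉ Z a := by
        intro h
        exact hN'.2 (mem_iUnion.2 ⟨a, t, h, hta⟩)
      refine ⟨a, hx1, ⟨t, ⟨ht, h5⟩, hta⟩, hx3, t, ⟨ht, h5⟩, hta, ?_⟩
      intro h
      exact hy2 a ⟨x, ⟨hx1, t, ⟨ht, h5⟩, hta, h⟩, hx3⟩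
    · rintro ⟨a, hx1, ⟨t, ht, hta⟩, hx3, -⟩
      refine ⟨hx1, ?_, hx3⟩
      exact (hP1 a).2.2.2.2 ⟨t, ht.1, hta⟩
  have hdis : ∀ y, Pairwise (Function.onFun Disjoint fun a => A a y) := by
    intro y a b hab
    rw [Function.onFun, disjoint_left]
    intro x hxa hxb
    rw [hA] at hxa hxb
    obtain ⟨-, ⟨t, ht, hta⟩, -⟩ := hxa
    obtain ⟨-, ⟨t', ht', hta'⟩, -⟩ := hxb
    exact disjoint_left.1 (hP2 hab) ⟨t, ht.1, hta⟩ ⟨t', ht'.1, hta'⟩
  -- the functions of `y`
  obtain ⟨Nf, hNf⟩ : ∃ Nf : ((Fin k → ℂ) → ℝ≥0∞) → (Fin m → ℂ) → ℝ≥0∞, Nf = fun f y =>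
      ∑' a, ∑' x : A a y, f x := ⟨_, rfl⟩
  have hNm : ∀ f, Measurable f → Measurable (Nf f) := by
    intro f hf
    rw [hNf]
    exact Measurable.tsum fun a => (hAF1 a f hf).1
  have hNi : ∀ f, Measurable f → ∫⁻ y, Nf f y = ∑' a, ∫⁻ t in S a, hs f a t := by
    intro f hf
    rw [hNf]
    rw [lintegral_tsum fun a => (hAF1 a f hf).1.aemeasurable]
    exact tsum_congr fun a => ((hAF1 a f hf).2).symm
  have hNX : ∀ᵐ y : Fin m → ℂ, ∀ f, Nf f y = ∑' x : X y, f x := by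
    filter_upwards [hXA] with y hy f
    rw [hNf, hy]
    exact (tsum_disj f (fun a => A a y) (hdis y)).symm
  have hKm : Measurable (K.indicator (1 : (Fin k → ℂ) → ℝ≥0∞)) := measurable_one.indicator hK
  have hKi : ∫⁻ y, Nf (K.indicator 1) y ≠ ⊤ := by
    rw [hNi _ hKm, hhs]
    exact hfin
  have hXK : ∀ᵐ y : Fin m → ℂ, (X y ∩ K).Finite := by
    filter_upwards [hNX, ae_lt_top (hNm _ hKm) hKi] with y hy1 hy2
    apply finite_of_tsum
    rw [← hy1]
    exact hy2.ne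
  refine ⟨?_, ?_⟩
  · filter_upwards [hXK] with y hy
    refine hy.subset ?_
    rintro x ⟨hx1, hx2, hx3, hx4⟩
    rw [hX]
    exact ⟨⟨hx1, hx2, hx3⟩, hx4⟩
  -- the formula for a real function
  have hreal : ∀ G : (Fin k → ℂ) → ℝ, Measurable G → (∀ x, 0 ≤ G x) → (∀ x, G x ≤ ‖F x‖) →
      RF volume (fun a => volume.restrict (S a)) X (fun a t => fibre g n (ψ a t))
        (fun a t x => ‖bdet g n Φ (ψ a) t x‖ ^ 2) G := by
    intro G hG hG0 hGF
    have hGK : ∀ x, x ∉ K → G x = 0 := by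
      intro x hx
      have h4 : F x = 0 := by
        by_contra h
        exact hx (hFK x h)
      have h5 := hGF x
      rw [h4, norm_zero] at h5
      exact le_antisymm h5 (hG0 x)
    obtain ⟨f, hf⟩ : ∃ f : (Fin k → ℂ) → ℝ≥0∞, f = fun x => ENNReal.ofReal (G x) := ⟨_, rfl⟩
    have hfm : Measurable f := by
      rw [hf]
      exact hG.ennreal_ofReal
    have hfK : ∀ x, x ∉ K → f x = 0 := by
      intro x hx
      rw [hf]
      simp only
      rw [hGK x hx, ENNReal.ofReal_zero]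
    have hfle : ∀ x, f x ≤ ENNReal.ofReal B * K.indicator 1 x := by
      intro x
      by_cases hx : x ∈ K
      · rw [indicator_of_mem hx, Pi.one_apply, mul_one, hf]
        exact ENNReal.ofReal_le_ofReal ((hGF x).trans (hB x))
      · rw [hfK x hx]
        exact bot_le
    have hsum : ∑' a, ∫⁻ t in S a, hs f a t ≠ ⊤ := by
      have h4 : ∑' a, ∫⁻ t in S a, hs f a t ≤
          ENNReal.ofReal B * ∑' a, ∫⁻ t in S a, hs (K.indicator 1) a t := by
        rw [← ENNReal.tsum_mul_left]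
        refine ENNReal.tsum_le_tsum fun a => ?_
        rw [← lintegral_const_mul' _ _ ENNReal.ofReal_ne_top]
        refine lintegral_mono fun t => ?_
        rw [hhs]
        simp only
        rw [Finset.mul_sum]
        refine Finset.sum_le_sum fun x _ => ?_
        rw [← mul_assoc]
        exact mul_le_mul_left (hfle x) _
      refine ne_top_of_le_ne_top (ENNReal.mul_ne_top ENNReal.ofReal_ne_top ?_) h4
      rw [hhs]
      exact hfin
    have hNint : ∫⁻ y, Nf f y ≠ ⊤ := by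
      rw [hNi f hfm]
      exact hsum
    have hea : ∀ a, ∫⁻ t in S a, hs f a t ≠ ⊤ := fun a => ENNReal.ne_top_of_tsum_ne_top hsum a
    have hfy : ∀ᵐ y : Fin m → ℂ, (Nf f y).toReal = ∑ᶠ x ∈ X y, G x := by
      filter_upwards [hNX, hXK] with y hy1 hy2
      rw [hy1, tsum_fin f (X y) K hy2 hfK, ENNReal.toReal_sum, finsum_finset G (X y) hy2.toFinset]
      · refine Finset.sum_congr rfl fun x _ => ?_
        rw [hf]
        exact ENNReal.toReal_ofReal (hG0 x)
      · intro x hx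
        exact ((hy2.mem_toFinset).1 hx).1
      · intro x hx hne
        refine (hy2.mem_toFinset).2 ⟨hx, ?_⟩
        by_contra h
        exact hne (hGK x h)
      · intro x _
        rw [hf]
        exact ENNReal.ofReal_ne_top
    have hst : ∀ a t, (hs f a t).toReal =
        ∑ x ∈ fibre g n (ψ a t), G x * ‖bdet g n Φ (ψ a) t x‖ ^ 2 := by
      intro a t
      rw [hhs, hf]
      simp only
      rw [ENNReal.toReal_sum]
      · refine Finset.sum_congr rfl fun x _ => ?_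
        rw [ENNReal.toReal_mul, ENNReal.toReal_ofReal (hG0 x), ENNReal.toReal_ofReal (by positivity)]
      · intro x _
        exact ENNReal.mul_ne_top ENNReal.ofReal_ne_top ENNReal.ofReal_ne_top
    have hsm : ∀ a, AEMeasurable (hs f a) (volume.restrict (S a)) := by
      intro a
      obtain ⟨W, hW1, hW2⟩ := meas_sum hd g n (c := c a) (r := r a) (hP1 a).2.2.1.continuousOn
        (fun t x => f x * ENNReal.ofReal (‖bdet g n Φ (ψ a) t x‖ ^ 2))
        ((hfm.comp measurable_snd).mul (((meas_bdet g n Φ (ψ a)).norm.pow_const 2).ennreal_ofReal))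
      refine ⟨W, hW1, ?_⟩
      refine (ae_restrict_iff' (hP1 a).1).2 (Filter.Eventually.of_forall fun t ht => ?_)
      rw [hW2 t ((hP1 a).2.1 ht), hhs]
    have hsi : ∀ a, ∫ t in S a, ∑ x ∈ fibre g n (ψ a t), G x * ‖bdet g n Φ (ψ a) t x‖ ^ 2 =
        (∫⁻ t in S a, hs f a t).toReal := by
      intro a
      rw [← integral_toReal (hsm a) (ae_lt_top' (hsm a) (hea a))]
      exact integral_congr_ae (Filter.Eventually.of_forall fun t => (hst a t).symm)
    refine ⟨?_, ?_, ?_, ?_⟩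
    · exact (integrable_toReal_of_lintegral_ne_top (hNm f hfm).aemeasurable hNint).congr hfy
    · intro a
      exact (integrable_toReal_of_lintegral_ne_top (hsm a) (hea a)).congr
        (Filter.Eventually.of_forall fun t => hst a t)
    · simp only [hsi]
      exact ENNReal.summable_toReal hsum
    · simp only [hsi]
      rw [← ENNReal.tsum_toReal_eq hea, ← hNi f hfm,
        ← integral_toReal (hNm f hfm).aemeasurable (ae_lt_top (hNm f hfm) hNint)]
      exact integral_congr_ae (hfy.mono fun y hy => hy.symm)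
  have hfinal := comb volume (fun a => volume.restrict (S a)) X (fun a t => fibre g n (ψ a t))
    (fun a t x => ‖bdet g n Φ (ψ a) t x‖ ^ 2) K hXK (parts F)
    ![1, -1, Complex.I, -Complex.I] (by
      intro j x hx
      apply hFK
      intro h
      apply hx
      have h4 := parts_le F j x
      rw [h, norm_zero] at h4
      exact le_antisymm h4 (parts_nonneg F j x))
    (fun j => hreal (parts F j) (parts_meas hF j) (parts_nonneg F j) (parts_le F j)) F
    (parts_eq F)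
  rw [hX] at hfinal
  exact hfinal

end Pool.Agent.H78.UDA
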