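import Pool.Agent.H83.UE.Targets2
import Pool.Agent.H14.UDA.MEA
import Pool.Agent.H43.UDA.SIM
import Pool.Agent.H67.UDA.IT

/-!
Module AC, part 1: sums over the fibres are measurable.
-/

set_option autoImplicit false

open Polynomial MeasureTheory Filter Topology Set ProbabilityTheory
open scoped ComplexConjugate ENNReal

namespace Pool.Agent.H78.UDA

open Pool.Agent.H83.UE

variable {k m d : ℕ}

theorem it_pos (hd : 1 ≤ d) (g : RatMap d) (n : ℕ) :
    0 < (g.it n).1.natDegree ∨ 0 < (g.it n).2.natDegree := by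
  obtain ⟨-, -, h3, -, -⟩ := Pool.Agent.H67.UDA.pf_IT d hd g n
  have hpos : 0 < d ^ n := by positivity
  rcases h3 with h | h
  · left
    rw [h]
    exact hpos
  · right
    rw [h]
    exact hpos

/-- one variable -/
theorem meas_one (hd : 1 ≤ d) (g : RatMap d) (n : ℕ) (H : ℂ → ℝ≥0∞) (hH : Measurable H) :
    Measurable fun z => ∑ x ∈ (g.fib n z).roots.toFinset, H x := by
  obtain ⟨h1, h2, h3, h4, -⟩ := Pool.Agent.H67.UDA.pf_IT d hd g n
  obtain ⟨E, hE⟩ := Pool.Agent.H43.UDA.pf_SIM (d ^ n) (g.it n).1 (g.it n).2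
    (Nat.one_le_pow _ _ hd) h4 h1 h2 h3
  have hM := (Pool.Agent.H14.UDA.pf_MEA Pool.Agent.H43.UDA.pf_SIM (g.it n).1 (g.it n).2 h4
    (it_pos hd g n)).1 H hH
  refine hM.measurable_of_countable_ne (E.finite_toSet.countable.mono ?_)
  intro z hz
  by_contra hzE
  apply hz
  have hnd := (hE z fun h => hzE (Finset.mem_coe.2 h)).1
  show (((g.it n).1 - C z * (g.it n).2).roots.map H).sum =
    ∑ x ∈ ((g.it n).1 - C z * (g.it n).2).roots.toFinset, H x
  rw [Finset.sum_eq_multiset_sum, Multiset.toFinset_val, Multiset.dedup_eq_self.2 hnd]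

/-- the counting measure of the fibre -/
noncomputable def fm (g : RatMap d) (n : ℕ) (z : Fin k → ℂ) : Measure (Fin k → ℂ) :=
  ∑ x ∈ fibre g n z, Measure.dirac x

theorem fm_apply (g : RatMap d) (n : ℕ) (z : Fin k → ℂ) {s : Set (Fin k → ℂ)}
    (hs : MeasurableSet s) : fm g n z s = ∑ x ∈ fibre g n z, s.indicator 1 x := by
  unfold fm
  rw [Measure.finsetSum_apply]
  exact Finset.sum_congr rfl fun x _ => Measure.dirac_apply' x hs

theorem fm_lintegral (g : RatMap d) (n : ℕ) (z : Fin k → ℂ) (u : (Fin k → ℂ) → ℝ≥0∞) :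
    ∫⁻ x, u x ∂(fm g n z) = ∑ x ∈ fibre g n z, u x := by
  unfold fm
  rw [lintegral_finsetSum_measure]
  exact Finset.sum_congr rfl fun x _ => lintegral_dirac x u

theorem fib_natDegree (hd : 1 ≤ d) (g : RatMap d) (n : ℕ) (z : ℂ) :
    (g.fib n z).natDegree ≤ d ^ n := by
  obtain ⟨h1, h2, -⟩ := Pool.Agent.H67.UDA.pf_IT d hd g n
  unfold RatMap.fib
  refine (natDegree_sub_le _ _).trans (max_le h1 ?_)
  exact (natDegree_C_mul_le z _).trans h2

theorem card_fibre (hd : 1 ≤ d) (g : RatMap d) (n : ℕ) (z : Fin k → ℂ) :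
    (fibre g n z).card ≤ (d ^ n) ^ k := by
  unfold fibre
  rw [Fintype.card_piFinset]
  calc ∏ l, (g.fib n (z l)).roots.toFinset.card ≤ ∏ _l : Fin k, d ^ n := by
        refine Finset.prod_le_prod' fun l _ => ?_
        exact (Multiset.toFinset_card_le _).trans ((card_roots' _).trans (fib_natDegree hd g n _))
    _ = (d ^ n) ^ k := by simp

theorem fm_univ (hd : 1 ≤ d) (g : RatMap d) (n : ℕ) (z : Fin k → ℂ) :
    fm g n z univ ≤ (((d ^ n) ^ k : ℕ) : ℝ≥0∞) := by
  rw [fm_apply g n z MeasurableSet.univ]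
  simp only [indicator_univ, Pi.one_apply, Finset.sum_const, nsmul_eq_mul, mul_one]
  exact_mod_cast card_fibre hd g n z

theorem fm_meas (hd : 1 ≤ d) (g : RatMap d) (n : ℕ) :
    Measurable (fm g n : (Fin k → ℂ) → Measure (Fin k → ℂ)) := by
  have hf : ∀ z : Fin k → ℂ, IsFiniteMeasure (fm g n z) := fun z =>
    ⟨(fm_univ hd g n z).trans_lt (ENNReal.natCast_lt_top _)⟩
  have hbox : ∀ t : Fin k → Set ℂ, (∀ l, MeasurableSet (t l)) →
      Measurable fun z : Fin k → ℂ => fm g n z (univ.pi t) := by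
    intro t ht
    have e : (fun z : Fin k → ℂ => fm g n z (univ.pi t)) = fun z =>
        ∏ l, ∑ x ∈ (g.fib n (z l)).roots.toFinset, (t l).indicator (1 : ℂ → ℝ≥0∞) x := by
      funext z
      rw [fm_apply g n z (MeasurableSet.univ_pi ht), Finset.prod_univ_sum]
      refine Finset.sum_congr rfl fun x _ => ?_
      by_cases hx : x ∈ univ.pi t
      · rw [indicator_of_mem hx]
        symm
        exact Finset.prod_eq_one fun l _ => indicator_of_mem (hx l (mem_univ l)) _
      · rw [indicator_of_notMem hx]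
        rw [mem_univ_pi] at hx
        push Not at hx
        obtain ⟨l, hl⟩ := hx
        symm
        exact Finset.prod_eq_zero (Finset.mem_univ l) (indicator_of_notMem hl _)
    rw [e]
    refine Finset.measurable_prod _ fun l _ => ?_
    exact (meas_one hd g n _ (measurable_one.indicator (ht l))).comp (measurable_pi_apply l)
  refine Measurable.measure_of_isPiSystem (generateFrom_pi (α := fun _ : Fin k => ℂ)).symm
    isPiSystem_pi ?_ ?_
  · rintro s ⟨t, ht, rfl⟩
    exact hbox t fun l => ht l (mem_univ l)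
  · have := hbox (fun _ => univ) fun _ => MeasurableSet.univ
    simpa using this

/-- the kernel of the fibres -/
noncomputable def fk (hd : 1 ≤ d) (g : RatMap d) (n : ℕ) : Kernel (Fin k → ℂ) (Fin k → ℂ) :=
  ⟨fm g n, fm_meas hd g n⟩

instance (hd : 1 ≤ d) (g : RatMap d) (n : ℕ) :
    IsFiniteKernel (fk hd g n : Kernel (Fin k → ℂ) (Fin k → ℂ)) :=
  ⟨⟨_, ENNReal.natCast_lt_top _, fun z => fm_univ hd g n z⟩⟩

open scoped Classical in
/-- sums over the fibres of a holomorphic map -/
theorem meas_sum (hd : 1 ≤ d) (g : RatMap d) (n : ℕ) {c : Fin m → ℂ} {r : ℝ}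
    {ψ : (Fin m → ℂ) → (Fin k → ℂ)} (hψ : ContinuousOn ψ (Metric.ball c r))
    (H : (Fin m → ℂ) → (Fin k → ℂ) → ℝ≥0∞)
    (hH : Measurable fun p : (Fin m → ℂ) × (Fin k → ℂ) => H p.1 p.2) :
    ∃ W : (Fin m → ℂ) → ℝ≥0∞, Measurable W ∧
      ∀ t ∈ Metric.ball c r, W t = ∑ x ∈ fibre g n (ψ t), H t x := by
  have h0 : Measurable ((Metric.ball c r).piecewise ψ fun _ => 0) :=
    hψ.measurable_piecewise continuousOn_const Metric.isOpen_ball.measurableSet
  refine ⟨fun t => ∫⁻ x, H t x ∂((fk hd g n).comap _ h0 t), ?_, ?_⟩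
  · exact Measurable.lintegral_kernel_prod_right' hH
  · intro t ht
    show ∫⁻ x, H t x ∂(fm g n ((Metric.ball c r).piecewise ψ (fun _ => 0) t)) = _
    rw [piecewise_eq_of_mem _ _ _ ht]
    exact fm_lintegral g n _ _

theorem meas_det {E : Type} [MeasurableSpace E] (M : E → Matrix (Fin m) (Fin m) ℂ)
    (h : ∀ i j, Measurable fun e => M e i j) : Measurable fun e => (M e).det := by
  simp only [Matrix.det_apply']
  refine Finset.measurable_sum _ fun σ _ => ?_
  exact measurable_const.mul (Finset.measurable_prod _ fun i _ => h _ _)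

theorem meas_minor (Φ : (Fin k → ℂ) → (Fin m → ℂ)) (J : Idx k m) : Measurable (minor Φ J) := by
  unfold minor
  refine meas_det _ fun i j => ?_
  exact (measurable_pi_apply i).comp (measurable_fderiv_apply_const ℂ Φ _)

theorem meas_rmin (ψ : (Fin m → ℂ) → (Fin k → ℂ)) (I : Idx k m) : Measurable (rmin ψ I) := by
  unfold rmin
  refine meas_det _ fun i j => ?_
  have h := measurable_fderiv_apply_const ℂ ψ (Pi.single j (1 : ℂ))
  exact (measurable_pi_apply (I.1.orderEmbOfFin I.2 i)).comp h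

theorem meas_bdet (g : RatMap d) (n : ℕ) (Φ : (Fin k → ℂ) → (Fin m → ℂ))
    (ψ : (Fin m → ℂ) → (Fin k → ℂ)) :
    Measurable fun p : (Fin m → ℂ) × (Fin k → ℂ) => bdet g n Φ ψ p.1 p.2 := by
  unfold bdet
  refine Finset.measurable_sum _ fun I _ => ?_
  refine ((meas_minor Φ I).comp measurable_snd).mul
    (((meas_rmin ψ I).comp measurable_fst).div (Finset.measurable_prod _ fun i _ => ?_))
  have hder : Measurable (g.der n) := measurable_deriv _
  exact hder.comp ((measurable_pi_apply i).comp measurable_snd)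

end Pool.Agent.H78.UDA
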